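import Mathlib

/-!
# A lemma about symmetric 0/1 matrices with midpoints

`M` is a symmetric matrix with entries in `Bool` and an arbitrary diagonal.  `PairsIn M E` says that
every closed pair of `E` has a midpoint in `E`.  If `M` has the property on the whole type and there
is an induced path with four vertices, then there is one with diagonal `0,1,1,0` such that no row
which agrees with the four rows wherever these agree sees exactly `{a,b}`, `{a,c}`, `{b,d}` or
`{c,d}`.  (The proof follows helper44's, with component-free variants of Claim A.)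
-/

namespace Pool.Agent.H27.P4

open Finset

variable {V : Type*}

def IsP4 (M : V → V → Bool) (a b c d : V) : Prop :=
  M a b = true ∧ M b c = true ∧ M c d = true ∧ M a c = false ∧ M b d = false ∧ M a d = false

def NoP4 (M : V → V → Bool) (E : Finset V) : Prop :=
  ∀ a ∈ E, ∀ b ∈ E, ∀ c ∈ E, ∀ d ∈ E, ¬ IsP4 M a b c d

def PairsIn (M : V → V → Bool) (E : Finset V) : Prop :=
  ∀ u ∈ E, ∀ v ∈ E, M u u = M v v → M u v ≠ M u u →
    ∃ g ∈ E, M g g ≠ M u u ∧ M g u = M g g ∧ M g v = M g g ∧
      ∀ x, M u x = M v x → M g x = M u x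

def IF (M : V → V → Bool) (E : Finset V) : Prop :=
  (∃ x ∈ E, ∀ y ∈ E, M x y = false) ∨ (∃ x ∈ E, ∀ y ∈ E, M x y = true)

theorem NoP4.mono {M : V → V → Bool} {E F : Finset V} (h : NoP4 M F) (hEF : E ⊆ F) : NoP4 M E :=
  fun a ha b hb c hc d hd => h a (hEF ha) b (hEF hb) c (hEF hc) d (hEF hd)

theorem PairsIn.one {M : V → V → Bool} {E : Finset V} (h : PairsIn M E) {u v : V} (hu : u ∈ E)
    (hv : v ∈ E) (huu : M u u = true) (hvv : M v v = true) (huv : M u v = false) :
    ∃ g ∈ E, M g g = false ∧ M g u = false ∧ M g v = false ∧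
      ∀ x, M u x = M v x → M g x = M u x := by
  obtain ⟨g, hg, h1, h2, h3, h4⟩ := h u hu v hv (by rw [huu, hvv]) (by rw [huu, huv]; simp)
  have hgg : M g g = false := by
    rw [huu] at h1; simpa using h1
  exact ⟨g, hg, hgg, h2.trans hgg, h3.trans hgg, h4⟩

theorem PairsIn.zero {M : V → V → Bool} {E : Finset V} (h : PairsIn M E) {u v : V} (hu : u ∈ E)
    (hv : v ∈ E) (huu : M u u = false) (hvv : M v v = false) (huv : M u v = true) :
    ∃ g ∈ E, M g g = true ∧ M g u = true ∧ M g v = true ∧
      ∀ x, M u x = M v x → M g x = M u x := by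
  obtain ⟨g, hg, h1, h2, h3, h4⟩ := h u hu v hv (by rw [huu, hvv]) (by rw [huu, huv]; simp)
  have hgg : M g g = true := by
    rw [huu] at h1; simpa using h1
  exact ⟨g, hg, hgg, h2.trans hgg, h3.trans hgg, h4⟩

theorem PairsIn.filter {M : V → V → Bool} {E : Finset V} (h : PairsIn M E) (w : V) (t : Bool) :
    PairsIn M (E.filter (fun y => M y w = t)) := by
  intro u hu v hv h1 h2
  rw [mem_filter] at hu hv
  obtain ⟨g, hg, h3, h4, h5, h6⟩ := h u hu.1 v hv.1 h1 h2
  exact ⟨g, mem_filter.2 ⟨hg, (h6 w (hu.2.trans hv.2.symm)).trans hu.2⟩, h3, h4, h5, h6⟩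

/-- a vertex without loop has a `plus` vertex if its neighbourhood has an isolated or full vertex -/
theorem plus_of {M : V → V → Bool} (hs : ∀ x y, M x y = M y x) {C : Finset V} (hP : PairsIn M C)
    {w : V} (hw : w ∈ C) (hww : M w w = false)
    (h : IF M (C.filter (fun y => M y w = true))) :
    ∃ w' ∈ C, M w' w = true ∧ ∀ y ∈ C, M y w = true → M w' y = true := by
  rcases h with ⟨x, hx, hx'⟩ | ⟨x, hx, hx'⟩
  · rw [mem_filter] at hx
    have hxx : M x x = false := hx' x (mem_filter.2 hx)
    obtain ⟨g, hg, h1, h2, h3, -⟩ := hP.zero hw hx.1 hww hxx ((hs w x).trans hx.2)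
    have := hx' g (mem_filter.2 ⟨hg, h2⟩)
    rw [hs, h3] at this
    exact absurd this (by simp)
  · rw [mem_filter] at hx
    exact ⟨x, hx.1, hx.2, fun y hy hyw => hx' y (mem_filter.2 ⟨hy, hyw⟩)⟩

/-- a vertex with largest neighbourhood in a family -/
theorem max_key {M : V → V → Bool} {E F : Finset V} {b : V}
    (hb : ∀ h ∈ F, (E.filter (fun y => M h y = true)).card ≤
      (E.filter (fun y => M b y = true)).card) {h : V} (hh : h ∈ F)
    (hsub : ∀ y ∈ E, M b y = true → M h y = true) :
    ∀ y ∈ E, M h y = true → M b y = true := by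
  intro y hy hhy
  have hss : E.filter (fun y => M b y = true) ⊆ E.filter (fun y => M h y = true) := by
    intro z hz
    rw [mem_filter] at hz ⊢
    exact ⟨hz.1, hsub z hz.1 hz.2⟩
  have heq := Finset.eq_of_subset_of_card_le hss (hb h hh)
  have : y ∈ E.filter (fun y => M b y = true) := by
    rw [heq]; exact mem_filter.2 ⟨hy, hhy⟩
  exact (mem_filter.1 this).2

/-- Claim A -/
theorem claimA {M : V → V → Bool} (hs : ∀ x y, M x y = M y x) (E : Finset V) :
    E.Nonempty → PairsIn M E → NoP4 M E → IF M E := by
  classical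
  induction E using Finset.strongInduction with
  | H E ih =>
    intro hne hP h4
    by_contra hIF
    have hiso : ∀ x ∈ E, ∃ y ∈ E, M x y = true := by
      intro x hx
      by_contra hcon
      push Not at hcon
      exact hIF (Or.inl ⟨x, hx, fun y hy => by simpa using hcon y hy⟩)
    have hful : ∀ x ∈ E, ∃ y ∈ E, M x y = false := by
      intro x hx
      by_contra hcon
      push Not at hcon
      exact hIF (Or.inr ⟨x, hx, fun y hy => by simpa using hcon y hy⟩)
    have hplus : ∀ w ∈ E, M w w = false →
        ∃ w' ∈ E, M w' w = true ∧ ∀ y ∈ E, M y w = true → M w' y = true := by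
      intro w hw hww
      refine plus_of hs hP hw hww (ih _ ?_ ?_ (hP.filter w true) (h4.mono (filter_subset _ _)))
      · refine (Finset.filter_ssubset).2 ⟨w, hw, by simp [hww]⟩
      · obtain ⟨y, hy, hwy⟩ := hiso w hw
        exact ⟨y, mem_filter.2 ⟨hy, (hs y w).trans hwy⟩⟩
    obtain ⟨b, hb, hbmax⟩ :=
      Finset.exists_max_image E (fun b => (E.filter (fun y => M b y = true)).card) hne
    have key : ∀ {h : V}, h ∈ E → (∀ y ∈ E, M b y = true → M h y = true) →
        ∀ y ∈ E, M h y = true → M b y = true := fun hh hsub => max_key hbmax hh hsub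
    have hbb : M b b = true := by
      by_contra hbb
      have hbb' : M b b = false := by simpa using hbb
      obtain ⟨w', hw', h1, h2⟩ := hplus b hb hbb'
      have := key hw' (fun y hy hby => h2 y hy ((hs y b).trans hby)) b hb h1
      exact hbb this
    obtain ⟨z, hz, hbz⟩ := hful b hb
    have hG : IF M (E.filter (fun y => M y b = false)) := by
      refine ih _ ?_ ⟨z, mem_filter.2 ⟨hz, (hs z b).trans hbz⟩⟩ (hP.filter b false)
        (h4.mono (filter_subset _ _))
      exact (Finset.filter_ssubset).2 ⟨b, hb, by simp [hbb]⟩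
    rcases hG with ⟨x, hx, hx'⟩ | ⟨f, hf, hf'⟩
    · rw [mem_filter] at hx
      have hxx : M x x = false := hx' x (mem_filter.2 hx)
      obtain ⟨c, hc, hcx, hc'⟩ := hplus x hx.1 hxx
      have hcb : M c b = true := by
        by_contra hcb
        have hcb' : M c b = false := by simpa using hcb
        have := hx' c (mem_filter.2 ⟨hc, hcb'⟩)
        rw [hs, hcx] at this
        exact absurd this (by simp)
      have : ∃ a ∈ E, M b a = true ∧ M c a = false := by
        by_contra hcon
        push Not at hcon
        have h1 := key hc (fun y hy hby => by simpa using hcon y hy hby) x hx.1 hcx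
        rw [hs, hx.2] at h1
        exact absurd h1 (by simp)
      obtain ⟨a, ha, hba, hca⟩ := this
      refine h4 a ha b hb c hc x hx.1 ⟨(hs a b).trans hba, (hs b c).trans hcb, hcx,
        (hs a c).trans hca, (hs b x).trans hx.2, ?_⟩
      by_contra hax
      have hax' : M a x = true := by simpa using hax
      have := hc' a ha hax'
      rw [hca] at this
      exact absurd this (by simp)
    · rw [mem_filter] at hf
      have hff : M f f = true := hf' f (mem_filter.2 hf)
      obtain ⟨g, hg, -, hgf, hgb, -⟩ := hP.one hf.1 hb hff hbb hf.2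
      have := hf' g (mem_filter.2 ⟨hg, hgb⟩)
      rw [hs, hgf] at this
      exact absurd this (by simp)

/-- the neighbourhood of a vertex with maximal neighbourhood is a union of components -/
theorem comp_full {M : V → V → Bool} (hs : ∀ x y, M x y = M y x) {E : Finset V}
    (hP : PairsIn M E) (h4 : NoP4 M E) {f : V} (hf : f ∈ E) (hff : M f f = true)
    (key : ∀ h ∈ E, (∀ y ∈ E, M f y = true → M h y = true) → ∀ y ∈ E, M h y = true → M f y = true)
    {x : V} (hx : x ∈ E) (hfx : M f x = true) {y : V} (hy : y ∈ E) (hxy : M x y = true) :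
    M f y = true := by
  by_contra hfy
  have hfy' : M f y = false := by simpa using hfy
  have hPY : PairsIn M ((E.filter (fun y => M y x = true)).filter (fun y => M y f = false)) :=
    (hP.filter x true).filter f false
  have hY : IF M ((E.filter (fun y => M y x = true)).filter (fun y => M y f = false)) := by
    refine claimA hs _ ⟨y, ?_⟩ hPY
      (h4.mono ((filter_subset _ _).trans (filter_subset _ _)))
    simp only [mem_filter]
    exact ⟨⟨hy, (hs y x).trans hxy⟩, (hs y f).trans hfy'⟩
  rcases hY with ⟨g, hg, hg'⟩ | ⟨u, hu, hu'⟩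
  · have hgg : M g g = false := hg' g hg
    simp only [mem_filter] at hg
    obtain ⟨⟨hgE, hgx⟩, hgf⟩ := hg
    have hplus : ∃ h ∈ E, M h g = true ∧ ∀ y ∈ E, M y g = true → M h y = true := by
      refine plus_of hs hP hgE hgg (claimA hs _ ⟨x, mem_filter.2 ⟨hx, (hs x g).trans hgx⟩⟩
        (hP.filter g true) (h4.mono (filter_subset _ _)))
    obtain ⟨h, hh, hhg, hh'⟩ := hplus
    have hhx : M h x = true := hh' x hx ((hs x g).trans hgx)
    have hhf : M h f = true := by
      by_contra hhf
      have hhf' : M h f = false := by simpa using hhf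
      have := hg' h (by simp only [mem_filter]; exact ⟨⟨hh, hhx⟩, hhf'⟩)
      rw [hs, hhg] at this
      exact absurd this (by simp)
    have : ∃ a ∈ E, M f a = true ∧ M h a = false := by
      by_contra hcon
      push Not at hcon
      have h1 := key h hh (fun y hy hby => by simpa using hcon y hy hby) g hgE hhg
      rw [hs, hgf] at h1
      exact absurd h1 (by simp)
    obtain ⟨a, ha, hfa, hha⟩ := this
    refine h4 a ha f hf h hh g hgE ⟨(hs a f).trans hfa, (hs f h).trans hhf, hhg,
      (hs a h).trans hha, (hs f g).trans hgf, ?_⟩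
    by_contra hag
    have hag' : M a g = true := by simpa using hag
    have := hh' a ha hag'
    rw [hha] at this
    exact absurd this (by simp)
  · have huu : M u u = true := hu' u hu
    simp only [mem_filter] at hu
    obtain ⟨⟨huE, hux⟩, huf⟩ := hu
    obtain ⟨g, hg, -, hgu, hgf, hgx⟩ := hP.one huE hf huu hff huf
    have h1 : M g x = true := (hgx x (hux.trans hfx.symm)).trans hux
    have := hu' g (by simp only [mem_filter]; exact ⟨⟨hg, h1⟩, hgf⟩)
    rw [hs, hgu] at this
    exact absurd this (by simp)

end Pool.Agent.H27.P4
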